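import Pool.Agent.Helper98.EX.Stmts

/-!
# Module CENS: the censoring inequality (Peres-Winkler)
-/

set_option autoImplicit false

namespace Pool.Agent.Helper98.EX

open Finset

/-- the sector -/
def cens_sec (N k : ℕ) : Finset (Cfg N) := Finset.univ.filter (fun η => ht η 0 = k)

theorem cens_mem_sec {N k : ℕ} {η : Cfg N} : η ∈ cens_sec N k ↔ ht η 0 = k := by
  simp [cens_sec]

/-- site weight -/
noncomputable def cens_w (r l : ℕ → ℝ) (i : ℕ) : ℝ := ∏ b ∈ Finset.Ioc 0 i, r b / l b

/-- reversible weight -/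
noncomputable def cens_p {N : ℕ} (r l : ℕ → ℝ) (η : Cfg N) : ℝ :=
  ∏ i ∈ Finset.range N, (if occ η i = true then cens_w r l i else 1)

theorem cens_w_pos {N : ℕ} {r l : ℕ → ℝ} (h : Adm N r l) (hl : Pos N l) {i : ℕ} (hi : i < N) :
    0 < cens_w r l i := by
  unfold cens_w
  apply Finset.prod_pos
  intro b hb
  rw [Finset.mem_Ioc] at hb
  have h1 := h b (by omega) (by omega)
  have h2 := hl b (by omega) (by omega)
  exact div_pos h1.1 h2

theorem cens_p_pos {N : ℕ} {r l : ℕ → ℝ} (h : Adm N r l) (hl : Pos N l) (η : Cfg N) :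
    0 < cens_p r l η := by
  unfold cens_p
  apply Finset.prod_pos
  intro i hi
  rw [Finset.mem_range] at hi
  split_ifs
  · exact cens_w_pos h hl hi
  · exact one_pos

theorem cens_swp_swp {N b : ℕ} (h1 : 1 ≤ b) (h2 : b < N) (η : Cfg N) : swp b (swp b η) = η := by
  apply cfg_ext
  intro i _
  rw [occ_swp h1 h2]
  by_cases hi : i = b
  · subst hi
    rw [if_pos rfl, occ_swp_pred h1 h2]
  · rw [if_neg hi]
    by_cases hi' : i + 1 = b
    · have e : i = b - 1 := by omega
      rw [if_pos hi', occ_swp_self h1 h2, e]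
    · rw [if_neg hi', occ_swp_ne h1 h2 η hi hi']

theorem cens_p_swp {N b : ℕ} {r l : ℕ → ℝ} (h1 : 1 ≤ b) (h2 : b < N) (hl : 0 < l b) (η : Cfg N)
    (ha : occ η (b - 1) = true) (hb : occ η b = false) :
    cens_p r l (swp b η) * l b = cens_p r l η * r b := by
  unfold cens_p
  have hb1 : b ∈ Finset.range N := Finset.mem_range.2 h2
  have hb2 : b - 1 ∈ (Finset.range N).erase b := by
    rw [Finset.mem_erase, Finset.mem_range]; omega
  have key : ∀ ζ : Cfg N, ∏ i ∈ Finset.range N, (if occ ζ i = true then cens_w r l i else 1) =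
      (if occ ζ b = true then cens_w r l b else 1) *
      ((if occ ζ (b - 1) = true then cens_w r l (b - 1) else 1) *
        ∏ i ∈ ((Finset.range N).erase b).erase (b - 1),
          (if occ ζ i = true then cens_w r l i else 1)) := by
    intro ζ
    rw [← Finset.mul_prod_erase _ _ hb1, ← Finset.mul_prod_erase _ _ hb2]
  rw [key, key]
  have hrest : ∏ i ∈ ((Finset.range N).erase b).erase (b - 1),
        (if occ (swp b η) i = true then cens_w r l i else 1) =
      ∏ i ∈ ((Finset.range N).erase b).erase (b - 1),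
        (if occ η i = true then cens_w r l i else 1) := by
    apply Finset.prod_congr rfl
    intro i hi
    rw [Finset.mem_erase, Finset.mem_erase] at hi
    rw [occ_swp_ne h1 h2 η hi.2.1 (by omega)]
  rw [hrest, occ_swp_self h1 h2, occ_swp_pred h1 h2, ha, hb]
  have hw : cens_w r l b = cens_w r l (b - 1) * (r b / l b) := by
    unfold cens_w
    obtain ⟨c, rfl⟩ : ∃ c, b = c + 1 := ⟨b - 1, by omega⟩
    rw [Finset.prod_Ioc_succ_top (by omega)]
    simp
  rw [hw]
  simp only [if_true, Bool.false_eq_true, if_false]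
  field_simp

/-- Dirichlet form of the bond `b` -/
noncomputable def cens_D {N : ℕ} (k : ℕ) (r l : ℕ → ℝ) (b : ℕ) (f g : Cfg N → ℝ) : ℝ :=
  ∑ η ∈ cens_sec N k, cens_p r l η * r b * ((f (Rm b η) - f η) * (g (Rm b η) - g η))

theorem cens_bond {N k : ℕ} {r l : ℕ → ℝ} (hl : Pos N l) (b : ℕ) (f g : Cfg N → ℝ) :
    ∑ η ∈ cens_sec N k, cens_p r l η * f η *
      (r b * (g (Rm b η) - g η) + l b * (g (Lm b η) - g η)) = - cens_D k r l b f g := by
  unfold cens_D
  by_cases hb : 1 ≤ b ∧ b < N
  · obtain ⟨h1, h2⟩ := hb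
    -- split off the left moves
    have e1 : ∑ η ∈ cens_sec N k, cens_p r l η * f η * (l b * (g (Lm b η) - g η)) =
        ∑ η ∈ (cens_sec N k).filter (fun η => occ η (b - 1) = false ∧ occ η b = true),
          cens_p r l η * f η * (l b * (g (swp b η) - g η)) := by
      rw [Finset.sum_filter]
      apply Finset.sum_congr rfl
      intro η _
      by_cases h : occ η (b - 1) = false ∧ occ η b = true
      · rw [if_pos h]
        have : Lm b η = swp b η := by
          unfold Lm; rw [if_pos ⟨h1, h2, h.1, h.2⟩]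
        rw [this]
      · rw [if_neg h]
        have : Lm b η = η := by
          unfold Lm; rw [if_neg]; tauto
        rw [this]; ring
    have e2 : ∑ η ∈ (cens_sec N k).filter (fun η => occ η (b - 1) = false ∧ occ η b = true),
          cens_p r l η * f η * (l b * (g (swp b η) - g η)) =
        ∑ η ∈ (cens_sec N k).filter (fun η => occ η (b - 1) = true ∧ occ η b = false),
          cens_p r l η * r b * (f (swp b η) * (g η - g (swp b η))) := by
      apply Finset.sum_bij' (fun η _ => swp b η) (fun η _ => swp b η)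
      · intro η hη
        rw [Finset.mem_filter, cens_mem_sec] at hη ⊢
        refine ⟨?_, ?_, ?_⟩
        · rw [ht_swp h1 h2 η 0 (by omega)]; exact hη.1
        · rw [occ_swp_pred h1 h2]; exact hη.2.2
        · rw [occ_swp_self h1 h2]; exact hη.2.1
      · intro η hη
        rw [Finset.mem_filter, cens_mem_sec] at hη ⊢
        refine ⟨?_, ?_, ?_⟩
        · rw [ht_swp h1 h2 η 0 (by omega)]; exact hη.1
        · rw [occ_swp_pred h1 h2]; exact hη.2.2
        · rw [occ_swp_self h1 h2]; exact hη.2.1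
      · intro η _; exact cens_swp_swp h1 h2 η
      · intro η _; exact cens_swp_swp h1 h2 η
      · intro η hη
        rw [Finset.mem_filter, cens_mem_sec] at hη
        rw [cens_swp_swp h1 h2]
        have h3 := cens_p_swp (r := r) (l := l) h1 h2 (hl b h1 h2) (swp b η)
          (by rw [occ_swp_pred h1 h2]; exact hη.2.2) (by rw [occ_swp_self h1 h2]; exact hη.2.1)
        rw [cens_swp_swp h1 h2] at h3
        rw [← h3]; ring
    have e3 : ∀ F : Cfg N → ℝ → ℝ, (∀ η, F η 0 = 0) →
        ∑ η ∈ cens_sec N k, F η (g (Rm b η) - g η) =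
        ∑ η ∈ (cens_sec N k).filter (fun η => occ η (b - 1) = true ∧ occ η b = false),
          F η (g (swp b η) - g η) := by
      intro F hF
      rw [Finset.sum_filter]
      apply Finset.sum_congr rfl
      intro η _
      by_cases h : occ η (b - 1) = true ∧ occ η b = false
      · rw [if_pos h]
        have : Rm b η = swp b η := by
          unfold Rm; rw [if_pos ⟨h1, h2, h.1, h.2⟩]
        rw [this]
      · rw [if_neg h]
        have : Rm b η = η := by
          unfold Rm; rw [if_neg]; tauto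
        rw [this, sub_self, hF]
    have e4 : ∑ η ∈ cens_sec N k, cens_p r l η * r b * ((f (Rm b η) - f η) * (g (Rm b η) - g η)) =
        ∑ η ∈ (cens_sec N k).filter (fun η => occ η (b - 1) = true ∧ occ η b = false),
          cens_p r l η * r b * ((f (swp b η) - f η) * (g (swp b η) - g η)) := by
      rw [Finset.sum_filter]
      apply Finset.sum_congr rfl
      intro η _
      by_cases h : occ η (b - 1) = true ∧ occ η b = false
      · rw [if_pos h]
        have : Rm b η = swp b η := by
          unfold Rm; rw [if_pos ⟨h1, h2, h.1, h.2⟩]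
        rw [this]
      · rw [if_neg h]
        have : Rm b η = η := by
          unfold Rm; rw [if_neg]; tauto
        rw [this]; ring
    have e5 : ∑ η ∈ cens_sec N k, cens_p r l η * f η *
        (r b * (g (Rm b η) - g η) + l b * (g (Lm b η) - g η)) =
        ∑ η ∈ cens_sec N k, cens_p r l η * f η * (r b * (g (Rm b η) - g η)) +
        ∑ η ∈ cens_sec N k, cens_p r l η * f η * (l b * (g (Lm b η) - g η)) := by
      rw [← Finset.sum_add_distrib]
      apply Finset.sum_congr rfl
      intro η _; ring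
    rw [e5, e1, e2, e3 (fun η t => cens_p r l η * f η * (r b * t)) (by intro η; ring), e4,
      ← Finset.sum_add_distrib, ← Finset.sum_neg_distrib]
    apply Finset.sum_congr rfl
    intro η _; ring
  · have e1 : ∀ η : Cfg N, Rm b η = η := fun η => Rm_out η hb
    have e2 : ∀ η : Cfg N, Lm b η = η := fun η => Lm_out η hb
    simp [e1, e2]

/-- weighted inner product on the sector -/
noncomputable def cens_ip {N : ℕ} (k : ℕ) (r l : ℕ → ℝ) (f g : Cfg N → ℝ) : ℝ :=
  ∑ η ∈ cens_sec N k, cens_p r l η * f η * g η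

theorem cens_ip_stp {N k : ℕ} {r l : ℕ → ℝ} (hl : Pos N l) (S : Finset ℕ) (f g : Cfg N → ℝ) :
    cens_ip k r l f (stp r l S g) =
      cens_ip k r l f g - (∑ b ∈ S, cens_D k r l b f g) / (2 * N) := by
  unfold cens_ip
  have e1 : ∀ η : Cfg N, cens_p r l η * f η * stp r l S g η = cens_p r l η * f η * g η +
      (∑ b ∈ S, cens_p r l η * f η *
        (r b * (g (Rm b η) - g η) + l b * (g (Lm b η) - g η))) / (2 * N) := by
    intro η
    rw [stp_open, ← Finset.mul_sum]; ring
  simp_rw [e1]
  rw [Finset.sum_add_distrib, ← Finset.sum_div, Finset.sum_comm]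
  simp_rw [cens_bond hl]
  rw [Finset.sum_neg_distrib]; ring

theorem cens_D_comm {N k : ℕ} {r l : ℕ → ℝ} (b : ℕ) (f g : Cfg N → ℝ) :
    cens_D k r l b f g = cens_D k r l b g f := by
  unfold cens_D
  apply Finset.sum_congr rfl
  intro η _; ring

theorem cens_ip_comm {N k : ℕ} {r l : ℕ → ℝ} (f g : Cfg N → ℝ) :
    cens_ip k r l f g = cens_ip k r l g f := by
  unfold cens_ip
  apply Finset.sum_congr rfl
  intro η _; ring

theorem cens_self {N k : ℕ} {r l : ℕ → ℝ} (hl : Pos N l) (S : Finset ℕ) (f g : Cfg N → ℝ) :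
    cens_ip k r l f (stp r l S g) = cens_ip k r l (stp r l S f) g := by
  rw [cens_ip_comm (stp r l S f) g, cens_ip_stp hl, cens_ip_stp hl, cens_ip_comm f g]
  simp_rw [cens_D_comm _ f g]

theorem cens_D_nonpos {N k : ℕ} {r l : ℕ → ℝ} (h : Adm N r l) (hl : Pos N l) (b : ℕ)
    {f g : Cfg N → ℝ} (hf : Inc k (fun η => - f η)) (hg : Inc k g) :
    cens_D k r l b f g ≤ 0 := by
  unfold cens_D
  apply Finset.sum_nonpos
  intro η hη
  rw [cens_mem_sec] at hη
  by_cases hb : 1 ≤ b ∧ b < N
  · have h1 : ht (Rm b η) 0 = k := (ht_Rm_zero η b).trans hη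
    have h2 : hle 0 η (Rm b η) := fun y => ht_Rm_ge η b y
    have a1 := hf η (Rm b η) hη h1 h2
    have a2 := hg η (Rm b η) hη h1 h2
    have a3 := cens_p_pos h hl η
    have a4 := (h b hb.1 hb.2).1
    have a5 : 0 ≤ cens_p r l η * r b := by positivity
    apply mul_nonpos_of_nonneg_of_nonpos a5
    apply mul_nonpos_of_nonpos_of_nonneg <;> linarith
  · rw [Rm_out η hb]; simp

theorem cens_step {N k : ℕ} {r l : ℕ → ℝ} (h : Adm N r l) (hl : Pos N l) {S S' : Finset ℕ}
    (hS : S' ⊆ S) {f g : Cfg N → ℝ} (hf : Inc k (fun η => - f η)) (hg : Inc k g) :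
    cens_ip k r l f (stp r l S' g) ≤ cens_ip k r l f (stp r l S g) := by
  rw [cens_ip_stp hl, cens_ip_stp hl]
  have h1 : ∑ b ∈ S, cens_D k r l b f g ≤ ∑ b ∈ S', cens_D k r l b f g := by
    rw [← Finset.sum_sdiff hS]
    have : ∑ b ∈ S \ S', cens_D k r l b f g ≤ 0 :=
      Finset.sum_nonpos fun b _ => cens_D_nonpos h hl b hf hg
    linarith
  have h2 : (0 : ℝ) ≤ 2 * (N : ℝ) := by positivity
  have h3 := div_le_div_of_nonneg_right h1 h2
  linarith

theorem cens_neg_stp {N : ℕ} (r l : ℕ → ℝ) (S : Finset ℕ) (f : Cfg N → ℝ) :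
    (fun η => - stp r l S f η) = stp r l S (fun η => - f η) := by
  funext η
  have h := stp_smul r l S (-1) f η
  have e : (fun ξ : Cfg N => (-1 : ℝ) * f ξ) = fun ξ => - f ξ := by funext ξ; ring
  rw [e] at h
  rw [h]; ring

theorem cens_main {N k : ℕ} {r l : ℕ → ℝ} (h : Adm N r l) (hl : Pos N l) {G : Cfg N → ℝ}
    (hG : Inc k G) (m : ℕ) : ∀ (σ σ' : ℕ → Finset ℕ), (∀ i, σ' i ⊆ σ i) → ∀ f : Cfg N → ℝ,
    Inc k (fun η => - f η) →
    cens_ip k r l f (ev r l σ' m G) ≤ cens_ip k r l f (ev r l σ m G) := by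
  induction m with
  | zero => intro σ σ' _ f _; simp
  | succ m ih =>
    intro σ σ' hσ f hf
    rw [ev_succ, ev_succ]
    have h1 : Inc k (fun η => - stp r l (σ' 0) f η) := by
      rw [cens_neg_stp]; exact stp_inc h hf
    calc cens_ip k r l f (stp r l (σ' 0) (ev r l (fun i => σ' (i + 1)) m G))
        = cens_ip k r l (stp r l (σ' 0) f) (ev r l (fun i => σ' (i + 1)) m G) :=
          cens_self hl _ _ _
      _ ≤ cens_ip k r l (stp r l (σ' 0) f) (ev r l (fun i => σ (i + 1)) m G) :=
          ih _ _ (fun i => hσ (i + 1)) _ h1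
      _ = cens_ip k r l f (stp r l (σ' 0) (ev r l (fun i => σ (i + 1)) m G)) :=
          (cens_self hl _ _ _).symm
      _ ≤ cens_ip k r l f (stp r l (σ 0) (ev r l (fun i => σ (i + 1)) m G)) :=
          cens_step h hl (hσ 0) hf (ev_inc h hG _ m)

theorem cens_pos {N k : ℕ} {r l : ℕ → ℝ} (hk : k ≤ N) (h : Adm N r l) (hl : Pos N l)
    {G : Cfg N → ℝ} (hG : Inc k G) (m : ℕ) (σ σ' : ℕ → Finset ℕ) (hσ : ∀ i, σ' i ⊆ σ i) :
    ev r l σ' m G (bot N k) ≤ ev r l σ m G (bot N k) := by
  classical
  have hf : Inc k (fun η : Cfg N => - (if η = bot N k then (1 : ℝ) else 0)) := by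
    intro η ξ h1 h2 h3
    beta_reduce
    by_cases hb : ξ = bot N k
    · have : η = bot N k := hle_antisymm (hb ▸ h3) (hle_bot hk h1)
      rw [if_pos hb, if_pos this]
    · rw [if_neg hb]
      split_ifs <;> norm_num
  have key := cens_main h hl hG m σ σ' hσ _ hf
  have e : ∀ g : Cfg N → ℝ, cens_ip k r l (fun η => if η = bot N k then (1 : ℝ) else 0) g =
      cens_p r l (bot N k) * g (bot N k) := by
    intro g
    unfold cens_ip
    rw [Finset.sum_eq_single (bot N k)]
    · simp
    · intro η _ hne; simp [hne]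
    · intro hn
      exact absurd (cens_mem_sec.2 (ht_bot_zero hk)) hn
  rw [e, e] at key
  exact le_of_mul_le_mul_left key (cens_p_pos h hl _)

/-- continuity of `ev` in the left rates -/
theorem cens_cont {N : ℕ} (r l : ℕ → ℝ) (G : Cfg N → ℝ) (m : ℕ) : ∀ (σ : ℕ → Finset ℕ)
    (η : Cfg N), Continuous (fun t : ℝ => ev r (fun x => max (l x) t) σ m G η) := by
  induction m with
  | zero => intro σ η; exact continuous_const
  | succ m ih =>
    intro σ η
    simp only [ev_succ]
    unfold stp
    apply Continuous.add (ih _ _)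
    apply Continuous.div_const
    apply continuous_finsetSum
    intro x _
    apply Continuous.add
    · exact continuous_const.mul ((ih _ _).sub (ih _ _))
    · exact (continuous_const.max continuous_id).mul ((ih _ _).sub (ih _ _))

theorem cens_congr {N : ℕ} {r l l' : ℕ → ℝ} (h : ∀ x, 1 ≤ x → x < N → l x = l' x)
    (G : Cfg N → ℝ) (m : ℕ) : ∀ σ : ℕ → Finset ℕ, ev r l σ m G = ev r l' σ m G := by
  induction m with
  | zero => intro σ; rfl
  | succ m ih =>
    intro σ
    rw [ev_succ, ev_succ, ih]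
    funext η
    unfold stp
    congr 2
    apply Finset.sum_congr rfl
    intro x hx
    rw [full, Finset.mem_Ico] at hx
    rw [h x hx.1 hx.2]

theorem st_CENS : ST_CENS := by
  intro N k r l σ σ' m f hk h hσ hf
  have h0 : ∀ τ : ℕ → Finset ℕ, ev r l τ m f = ev r (fun x => max (l x) 0) τ m f := by
    intro τ
    apply cens_congr
    intro x h1 h2
    exact (max_eq_left (h x h1 h2).2.2.1).symm
  rw [h0 σ, h0 σ']
  have hc : Continuous (fun t : ℝ => ev r (fun x => max (l x) t) σ m f (bot N k) -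
      ev r (fun x => max (l x) t) σ' m f (bot N k)) :=
    (cens_cont r l f m σ _).sub (cens_cont r l f m σ' _)
  have ht : Filter.Tendsto (fun n : ℕ => 1 / ((n : ℝ) + 1)) Filter.atTop (nhds 0) :=
    tendsto_one_div_add_atTop_nhds_zero_nat
  have hl := (hc.tendsto 0).comp ht
  have hge := ge_of_tendsto' (b := 0) hl (by
    intro n
    have hn : (0 : ℝ) < 1 / ((n : ℝ) + 1) := by positivity
    have hn1 : 1 / ((n : ℝ) + 1) ≤ 1 := by
      rw [div_le_one (by positivity)]
      have : (0 : ℝ) ≤ n := Nat.cast_nonneg n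
      linarith
    have hA : Adm N r (fun x => max (l x) (1 / ((n : ℝ) + 1))) := by
      intro x h1 h2
      obtain ⟨a, b, c, d⟩ := h x h1 h2
      exact ⟨a, b, le_max_of_le_left c, max_le d hn1⟩
    have hP : Pos N (fun x => max (l x) (1 / ((n : ℝ) + 1))) := by
      intro x _ _
      exact lt_max_of_lt_right hn
    have := cens_pos hk hA hP hf m σ σ' hσ
    simp only [Function.comp]
    linarith)
  linarith

end Pool.Agent.Helper98.EX
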