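import Pool.Agent.Helper98.EX.Stmts2

/-!
# Module NNG: non-nestling environments satisfy the environment conditions
-/

set_option autoImplicit false

namespace Pool.Agent.Helper98.EX

open Finset

theorem nng_RR {N : ℕ} {r l : ℕ → ℝ} {p0 q0 : ℝ} (hp : 0 < p0) (h : NN N r l p0 q0)
    {z x : ℕ} (hx : x < N) : 0 ≤ RR r l z x ∧ RR r l z x ≤ (q0 / p0) ^ (x - z) := by
  have hb : ∀ b ∈ Finset.Ioc z x, 0 ≤ l b / r b ∧ l b / r b ≤ q0 / p0 := by
    intro b hb
    rw [Finset.mem_Ioc] at hb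
    obtain ⟨h1, h2, h3, h4⟩ := h b (by omega) (by omega)
    refine ⟨div_nonneg h3 (by linarith), ?_⟩
    exact div_le_div₀ (by linarith) h4 hp h1
  constructor
  · exact Finset.prod_nonneg fun b hb' => (hb b hb').1
  · calc RR r l z x ≤ ∏ b ∈ Finset.Ioc z x, (q0 / p0) :=
          Finset.prod_le_prod (fun b hb' => (hb b hb').1) fun b hb' => (hb b hb').2
      _ = (q0 / p0) ^ (x - z) := by rw [Finset.prod_const, Nat.card_Ioc]

theorem nng_geom {t : ℝ} (h0 : 0 ≤ t) (h1 : t < 1) (n : ℕ) :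
    ∑ i ∈ Finset.range n, t ^ i ≤ 1 / (1 - t) := by
  rw [le_div_iff₀ (by linarith)]
  have e := mul_neg_geom_sum t n
  rw [mul_comm, e]
  linarith [pow_nonneg h0 n]

theorem nng_geomA {t : ℝ} (h0 : 0 ≤ t) (h1 : t < 1) (M a : ℕ) :
    ∑ z ∈ Finset.Ico a M, t ^ (M - z) ≤ 1 / (1 - t) := by
  calc ∑ z ∈ Finset.Ico a M, t ^ (M - z) ≤ ∑ z ∈ Finset.range M, t ^ (M - z) := by
        refine Finset.sum_le_sum_of_subset_of_nonneg ?_ fun i _ _ => pow_nonneg h0 _
        intro i hi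
        rw [Finset.mem_Ico] at hi
        rw [Finset.mem_range]
        exact hi.2
    _ ≤ ∑ z ∈ Finset.range M, t ^ (M - 1 - z) := by
        refine Finset.sum_le_sum fun z _ => ?_
        exact pow_le_pow_of_le_one h0 h1.le (by omega)
    _ = ∑ z ∈ Finset.range M, t ^ z := Finset.sum_range_reflect (fun i => t ^ i) M
    _ ≤ 1 / (1 - t) := nng_geom h0 h1 M

theorem nng_geomB {t : ℝ} (h0 : 0 ≤ t) (h1 : t < 1) (a n : ℕ) :
    ∑ x ∈ Finset.Ico a n, t ^ (x - a) ≤ 1 / (1 - t) := by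
  rw [Finset.sum_Ico_eq_sum_range]
  calc ∑ i ∈ Finset.range (n - a), t ^ (a + i - a) = ∑ i ∈ Finset.range (n - a), t ^ i := by
        refine Finset.sum_congr rfl fun i _ => ?_
        rw [Nat.add_sub_cancel_left]
    _ ≤ 1 / (1 - t) := nng_geom h0 h1 _

/-- product of two geometric sums -/
theorem nng_double {N : ℕ} {r l : ℕ → ℝ} {p0 q0 : ℝ} (hp : 0 < p0) (hq : 0 < q0) (hqp : q0 < p0)
    (h : NN N r l p0 q0) (M a m0 : ℕ) (hMa : M + m0 = a) :
    ∑ z ∈ Finset.Ico 0 M, ∑ x ∈ Finset.Ico a N, RR r l z x ≤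
      (q0 / p0) ^ m0 * (1 / (1 - q0 / p0)) ^ 2 := by
  have ht0 : 0 ≤ q0 / p0 := by positivity
  have ht1 : q0 / p0 < 1 := (div_lt_one hp).2 hqp
  obtain ⟨t, ht⟩ : ∃ t, t = q0 / p0 := ⟨_, rfl⟩
  calc ∑ z ∈ Finset.Ico 0 M, ∑ x ∈ Finset.Ico a N, RR r l z x
      ≤ ∑ z ∈ Finset.Ico 0 M, ∑ x ∈ Finset.Ico a N,
          (q0 / p0) ^ m0 * (q0 / p0) ^ (M - z) * (q0 / p0) ^ (x - a) := by
        refine Finset.sum_le_sum fun z hz => Finset.sum_le_sum fun x hx => ?_
        rw [Finset.mem_Ico] at hz hx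
        refine le_trans (nng_RR hp h hx.2).2 (le_of_eq ?_)
        rw [← pow_add, ← pow_add]
        congr 1
        omega
    _ = (q0 / p0) ^ m0 * ((∑ z ∈ Finset.Ico 0 M, (q0 / p0) ^ (M - z)) *
          ∑ x ∈ Finset.Ico a N, (q0 / p0) ^ (x - a)) := by
        rw [Finset.sum_mul_sum, Finset.mul_sum]
        refine Finset.sum_congr rfl fun z _ => ?_
        rw [Finset.mul_sum]
        refine Finset.sum_congr rfl fun x _ => ?_
        ring
    _ ≤ (q0 / p0) ^ m0 * (1 / (1 - q0 / p0)) ^ 2 := by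
        refine mul_le_mul_of_nonneg_left ?_ (pow_nonneg ht0 _)
        rw [pow_two]
        refine mul_le_mul (nng_geomA ht0 ht1 M 0) (nng_geomB ht0 ht1 a N)
          (Finset.sum_nonneg fun _ _ => pow_nonneg ht0 _) ?_
        exact div_nonneg zero_le_one (by linarith)

theorem nng_tails {N : ℕ} {r l : ℕ → ℝ} {p0 q0 : ℝ} (hp : 0 < p0) (hq : 0 < q0) (hqp : q0 < p0)
    (h : NN N r l p0 q0) (k m0 : ℕ) (hm : m0 ≤ N - k) :
    tails N k r l m0 ≤ 2 * ((q0 / p0) ^ m0 * (1 / (1 - q0 / p0)) ^ 2) := by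
  have h1 := nng_double hp hq hqp h (N - k - m0) (N - k) m0 (by omega)
  have h2 := nng_double hp hq hqp h (N - k) (N - k + m0) m0 rfl
  unfold tails
  linarith

theorem nng_atl {N : ℕ} {r l : ℕ → ℝ} {p0 q0 : ℝ} (hp : 0 < p0) (hq : 0 < q0) (hqp : q0 < p0)
    (h : NN N r l p0 q0) {η0 : ℝ} (hη : 0 < η0) (_hη1 : η0 ≤ 1) (hη2 : η0 ≤ (1 - q0 / p0) / 2)
    (w : ℕ) {y : ℕ} (hy : y + 1 < N) : atl r l η0 w y ≤ 4 / (p0 * (1 - q0 / p0)) := by
  have ht0 : 0 < q0 / p0 := by positivity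
  have ht1 : q0 / p0 < 1 := (div_lt_one hp).2 hqp
  obtain ⟨t, ht⟩ : ∃ t, t = q0 / p0 := ⟨_, rfl⟩
  have hRR : ∀ z, RR r l z y ≤ (q0 / p0) ^ (y - z) := fun z => (nng_RR hp h (by omega)).2
  rw [← ht] at ht0 ht1 hη2 hRR ⊢
  have h1t : (1 + η0) * t ≤ (1 + t) / 2 := by nlinarith
  have hphi0 : 0 ≤ (1 + t) / 2 := by linarith
  have hphi1 : (1 + t) / 2 < 1 := by linarith
  have hr : p0 ≤ r (y + 1) := (h (y + 1) (by omega) hy).1
  have hr0 : 0 < r (y + 1) := by linarith
  unfold atl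
  calc ∑ d ∈ Finset.range (min w (y + 1)), (1 + η0) ^ (d + 1) * RR r l (y - d) y / r (y + 1)
      ≤ ∑ d ∈ Finset.range (min w (y + 1)), 2 / p0 * ((1 + t) / 2) ^ d := by
        refine Finset.sum_le_sum fun d hd => ?_
        rw [Finset.mem_range] at hd
        have hd' : d ≤ y := by
          have := lt_min_iff.1 hd
          omega
        have e1 : (1 + η0) ^ (d + 1) * RR r l (y - d) y ≤ 2 * ((1 + t) / 2) ^ d := by
          calc (1 + η0) ^ (d + 1) * RR r l (y - d) y ≤ (1 + η0) ^ (d + 1) * t ^ d := by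
                refine mul_le_mul_of_nonneg_left ?_ (by positivity)
                have := hRR (y - d)
                rwa [Nat.sub_sub_self hd'] at this
            _ = (1 + η0) * ((1 + η0) * t) ^ d := by
                rw [mul_pow]
                ring
            _ ≤ 2 * ((1 + t) / 2) ^ d := by
                refine mul_le_mul (by linarith) ?_ (by positivity) (by norm_num)
                exact pow_le_pow_left₀ (by positivity) h1t d
        calc (1 + η0) ^ (d + 1) * RR r l (y - d) y / r (y + 1)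
            ≤ 2 * ((1 + t) / 2) ^ d / p0 := by
              exact div_le_div₀ (by positivity) e1 hp hr
          _ = 2 / p0 * ((1 + t) / 2) ^ d := by ring
    _ = 2 / p0 * ∑ d ∈ Finset.range (min w (y + 1)), ((1 + t) / 2) ^ d := by
        rw [Finset.mul_sum]
    _ ≤ 2 / p0 * (1 / (1 - (1 + t) / 2)) :=
        mul_le_mul_of_nonneg_left (nng_geom hphi0 hphi1 _) (by positivity)
    _ = 4 / (p0 * (1 - t)) := by
        have : (1 : ℝ) - t ≠ 0 := by linarith
        have e : (1 : ℝ) - (1 + t) / 2 = (1 - t) / 2 := by ring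
        rw [e]
        field_simp
        norm_num

theorem nng_zs {N : ℕ} {r l : ℕ → ℝ} {p0 q0 : ℝ} (hp : 0 < p0) (hq : 0 < q0) (hqp : q0 < p0)
    (h : NN N r l p0 q0) (x0 w : ℕ) (h1 : 1 ≤ w) (h2 : x0 + 3 * w ≤ N) :
    ∑ z ∈ Finset.Ico (x0 - 3 * w) x0, RR r l z x0 +
      ∑ x ∈ Finset.Ico x0 (x0 + 3 * w), RR r l x0 x ≤ 2 / (1 - q0 / p0) := by
  have ht0 : 0 ≤ q0 / p0 := by positivity
  have ht1 : q0 / p0 < 1 := (div_lt_one hp).2 hqp
  have a1 : ∑ z ∈ Finset.Ico (x0 - 3 * w) x0, RR r l z x0 ≤ 1 / (1 - q0 / p0) :=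
    le_trans (Finset.sum_le_sum fun z _ => (nng_RR hp h (by omega)).2)
      (nng_geomA ht0 ht1 x0 (x0 - 3 * w))
  have a2 : ∑ x ∈ Finset.Ico x0 (x0 + 3 * w), RR r l x0 x ≤ 1 / (1 - q0 / p0) := by
    refine le_trans (Finset.sum_le_sum fun x hx => ?_) (nng_geomB ht0 ht1 x0 (x0 + 3 * w))
    rw [Finset.mem_Ico] at hx
    exact (nng_RR hp h (by omega)).2
  have e : 2 / (1 - q0 / p0) = 1 / (1 - q0 / p0) + 1 / (1 - q0 / p0) := by ring
  rw [e]
  exact add_le_add a1 a2

theorem nng_mirr {N : ℕ} {r l : ℕ → ℝ} {p0 q0 : ℝ} (h : NN N r l p0 q0) :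
    NN N (mirr N r) (mirr N l) p0 q0 := fun x h1 h2 => h (N - x) (by omega) (by omega)

theorem nng_modl {N : ℕ} {r l : ℕ → ℝ} {p0 q0 : ℝ} (h : NN N r l p0 q0)
    (hN : (N : ℝ) ^ (-100 : ℝ) ≤ q0) : NN N r (modl N l) p0 q0 := fun x h1 h2 => by
  obtain ⟨a, b, c, d⟩ := h x h1 h2
  exact ⟨a, b, le_trans c (le_max_left _ _), max_le d hN⟩

/-- numerical facts for large `N` -/
structure NngNum (N m0 : ℕ) (p0 q0 c γ K0 L : ℝ) : Prop where
  l6 : 6 ≤ Real.log N
  lK : K0 ≤ Real.log N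
  lm : (m0 : ℝ) * L / 12 ≤ Real.log N
  lc : Real.log N ≤ c / (3 * K0) * N
  p2 : (N : ℝ) ^ (-2 : ℝ) ≤ p0
  pg : (N : ℝ) ^ (-(γ / 20)) ≤ p0
  q100 : (N : ℝ) ^ (-100 : ℝ) ≤ q0

theorem nng_num (m0 : ℕ) {p0 q0 c γ K0 L : ℝ} (hp : 0 < p0) (hq : 0 < q0) (hc : 0 < c)
    (hγ : 0 < γ) (hK : 0 < K0) : ∃ N0 : ℕ, ∀ N : ℕ, N0 ≤ N → NngNum N m0 p0 q0 c γ K0 L := by
  have hcast : Filter.Tendsto (fun n : ℕ => (n : ℝ)) Filter.atTop Filter.atTop :=
    tendsto_natCast_atTop_atTop
  have hlog : Filter.Tendsto (fun n : ℕ => Real.log (n : ℝ)) Filter.atTop Filter.atTop :=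
    Real.tendsto_log_atTop.comp hcast
  have hpw : ∀ y : ℝ, 0 < y → ∀ e : ℝ, 0 < e → ∀ᶠ n : ℕ in Filter.atTop,
      (n : ℝ) ^ (-y) ≤ e := by
    intro y hy e he
    have := (tendsto_rpow_neg_atTop hy).comp hcast
    exact (this.eventually (gt_mem_nhds he)).mono fun n hn => le_of_lt hn
  have hl : ∀ᶠ n : ℕ in Filter.atTop, Real.log (n : ℝ) ≤ c / (3 * K0) * n := by
    have h1 := (Real.isLittleO_log_id_atTop.comp_tendsto hcast).bound
      (div_pos hc (by linarith : (0 : ℝ) < 3 * K0))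
    filter_upwards [h1] with n hn
    simp only [Function.comp_apply, id_eq, Real.norm_eq_abs] at hn
    rw [abs_of_nonneg (Nat.cast_nonneg (α := ℝ) n)] at hn
    exact le_trans (le_abs_self _) hn
  have hall : ∀ᶠ n : ℕ in Filter.atTop, NngNum n m0 p0 q0 c γ K0 L := by
    filter_upwards [hlog.eventually_ge_atTop 6, hlog.eventually_ge_atTop K0,
      hlog.eventually_ge_atTop ((m0 : ℝ) * L / 12), hl, hpw 2 (by norm_num) p0 hp,
      hpw (γ / 20) (by linarith) p0 hp, hpw 100 (by norm_num) q0 hq] with n h1 h2 h3 h4 h5 h6 h7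
    exact ⟨h1, h2, h3, h4, h5, h6, h7⟩
  exact Filter.eventually_atTop.1 hall

theorem nng_alg {e u : ℝ} (hu : u ≠ 0) : e * u ^ 2 / 2 * (1 / u) ^ 2 = e / 2 := by
  field_simp

theorem st_NNG : ST_NNG := by
  intro p0 q0 c γ hq hqp hp1 hc hγ hγ1
  have hp : 0 < p0 := by linarith
  have ht0 : 0 < q0 / p0 := by positivity
  have ht1 : q0 / p0 < 1 := (div_lt_one hp).2 hqp
  obtain ⟨L, hL⟩ : ∃ L, L = -Real.log (q0 / p0) := ⟨_, rfl⟩
  have hL0 : 0 < L := by
    rw [hL]
    linarith [Real.log_neg ht0 ht1]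
  have h1t : 0 < 1 - q0 / p0 := by linarith
  refine ⟨min 1 (min ((1 - q0 / p0) / 2) (L / 24)), ?_, min_le_left _ _, ?_⟩
  · refine lt_min one_pos (lt_min (by linarith) (by linarith))
  intro η0 hη0 hηm
  have hη1 : η0 ≤ 1 := le_trans hηm (min_le_left _ _)
  have hη2 : η0 ≤ (1 - q0 / p0) / 2 :=
    le_trans hηm (le_trans (min_le_right _ _) (min_le_left _ _))
  have hη3 : η0 ≤ L / 24 := le_trans hηm (le_trans (min_le_right _ _) (min_le_right _ _))
  have has : 1 ≤ 4 / (p0 * (1 - q0 / p0)) := by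
    rw [le_div_iff₀ (by positivity)]
    nlinarith
  have hK0 : 0 < 12 / L + 2 := by positivity
  refine ⟨12 / L + 2, 4 / (p0 * (1 - q0 / p0)), 2 / (1 - q0 / p0), 4 / (p0 * (1 - q0 / p0)),
    has, by positivity, by positivity, hK0, ?_⟩
  intro e0 he0
  obtain ⟨m0, hm0⟩ := exists_pow_lt_of_lt_one
    (show 0 < e0 * (1 - q0 / p0) ^ 2 / 2 by positivity) ht1
  obtain ⟨N0, hN0⟩ := nng_num m0 (p0 := p0) (q0 := q0) (c := c) (γ := γ) (K0 := 12 / L + 2)
    (L := L) hp hq hc hγ hK0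
  refine ⟨m0, N0, ?_⟩
  intro N k r l hN hck hkc hNN
  have hnum := hN0 N hN
  have hNpos : 0 < (N : ℝ) := by
    by_contra hcon
    have : (N : ℝ) = 0 := le_antisymm (not_lt.1 hcon) (Nat.cast_nonneg N)
    have h6 := hnum.l6
    rw [this, Real.log_zero] at h6
    linarith
  have hN1 : (1 : ℝ) ≤ N := by
    have : 0 < N := by exact_mod_cast hNpos
    exact_mod_cast this
  have hkN : k ≤ N := by
    have : (k : ℝ) ≤ N := by nlinarith
    exact_mod_cast this
  obtain ⟨w, hw⟩ : ∃ w : ℕ, w = ⌈12 * Real.log N / L⌉₊ + 1 := ⟨_, rfl⟩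
  have hlog0 : 0 ≤ Real.log N := by linarith [hnum.l6]
  have hw1 : 12 * Real.log N / L ≤ w := by
    rw [hw]
    push_cast
    linarith [Nat.le_ceil (12 * Real.log N / L)]
  have hw2 : (w : ℝ) ≤ 12 * Real.log N / L + 2 := by
    rw [hw]
    push_cast
    linarith [Nat.ceil_lt_add_one (show 0 ≤ 12 * Real.log N / L by positivity)]
  have hw3 : (w : ℝ) ≤ (12 / L + 2) * Real.log N := by
    refine le_trans hw2 ?_
    have : (12 / L + 2) * Real.log N = 12 * Real.log N / L + 2 * Real.log N := by ring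
    rw [this]
    linarith [hnum.l6]
  have hwc : 3 * (w : ℝ) ≤ c * N := by
    have h1 := mul_le_mul_of_nonneg_left hnum.lc (show 0 ≤ 3 * (12 / L + 2) by positivity)
    have h2 : 3 * (12 / L + 2) * (c / (3 * (12 / L + 2)) * N) = c * N := by
      field_simp
    rw [h2] at h1
    nlinarith
  have w1 : 1 ≤ w := by omega
  have wlog : (w : ℝ) ≤ Real.log N ^ 2 := by
    refine le_trans hw3 ?_
    rw [pow_two]
    exact mul_le_mul_of_nonneg_right hnum.lK hlog0
  have hm0w : m0 ≤ w := by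
    have h1 := hnum.lm
    have h2 : (m0 : ℝ) ≤ 12 * Real.log N / L := by
      rw [le_div_iff₀ hL0]
      linarith
    have : (m0 : ℝ) ≤ w := le_trans h2 hw1
    exact_mod_cast this
  have hA : 3 * w ≤ N - k := by
    have h1 : ((3 * w + k : ℕ) : ℝ) ≤ N := by
      push_cast
      nlinarith
    have : 3 * w + k ≤ N := by exact_mod_cast h1
    omega
  have hB : (N - k) + 3 * w ≤ N := by
    have h1 : ((3 * w : ℕ) : ℝ) ≤ k := by
      push_cast
      linarith
    have : 3 * w ≤ k := by exact_mod_cast h1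
    omega
  have hfar : (q0 / p0) ^ w ≤ (N : ℝ) ^ (-12 : ℝ) := by
    rw [Real.rpow_def_of_pos hNpos]
    have e : (q0 / p0) ^ w = Real.exp (w * Real.log (q0 / p0)) := by
      rw [Real.exp_nat_mul, Real.exp_log ht0]
    rw [e]
    apply Real.exp_le_exp.2
    have e2 : Real.log (q0 / p0) = -L := by rw [hL]; ring
    rw [e2]
    rw [div_le_iff₀ hL0] at hw1
    linarith
  have tiny : (1 + η0) ^ (w + 1) ≤ (N : ℝ) := by
    calc (1 + η0) ^ (w + 1) ≤ Real.exp η0 ^ (w + 1) := by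
          refine pow_le_pow_left₀ (by linarith) ?_ _
          linarith [Real.add_one_le_exp η0]
      _ = Real.exp (((w + 1 : ℕ) : ℝ) * η0) := by rw [Real.exp_nat_mul]
      _ ≤ Real.exp (Real.log N) := by
          apply Real.exp_le_exp.2
          push_cast
          have h1 : 12 * Real.log N / L * η0 ≤ Real.log N / 2 := by
            have h2 : 12 * Real.log N / L * η0 ≤ 12 * Real.log N / L * (L / 24) :=
              mul_le_mul_of_nonneg_left hη3 (by positivity)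
            have h3 : 12 * Real.log N / L * (L / 24) = Real.log N / 2 := by
              field_simp
              ring
            linarith
          have h4 : ((w : ℝ) + 1) * η0 ≤ (12 * Real.log N / L + 2 + 1) * η0 :=
            mul_le_mul_of_nonneg_right (by linarith) hη0.le
          nlinarith [hnum.l6]
      _ = N := Real.exp_log hNpos
  have hNN' := nng_modl hNN hnum.q100
  have hpow12 : ∀ z x : ℕ, z + w ≤ x → (q0 / p0) ^ (x - z) ≤ (N : ℝ) ^ (-12 : ℝ) := by
    intro z x hzx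
    refine le_trans (pow_le_pow_of_le_one ht0.le ht1.le (by omega)) hfar
  have hpow1 : ∀ z x : ℕ, (q0 / p0) ^ (x - z) ≤ 1 := fun z x => pow_le_one₀ ht0.le ht1.le
  have hone : ∀ y : ℝ, 0 ≤ y → (1 : ℝ) ≤ (N : ℝ) ^ y := fun y hy => Real.one_le_rpow hN1 hy
  have htail : 2 * ((q0 / p0) ^ m0 * (1 / (1 - q0 / p0)) ^ 2) ≤ e0 := by
    have h1 : (q0 / p0) ^ m0 * (1 / (1 - q0 / p0)) ^ 2 ≤
        e0 * (1 - q0 / p0) ^ 2 / 2 * (1 / (1 - q0 / p0)) ^ 2 :=
      mul_le_mul_of_nonneg_right hm0.le (by positivity)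
    have h2 : e0 * (1 - q0 / p0) ^ 2 / 2 * (1 / (1 - q0 / p0)) ^ 2 = e0 / 2 :=
      nng_alg h1t.ne'
    linarith
  have adm : ∀ {l' : ℕ → ℝ}, NN N r l' p0 q0 → Adm N r l' := by
    intro l' h x h1 h2
    obtain ⟨a, b, c, d⟩ := h x h1 h2
    exact ⟨by linarith, b, c, by linarith⟩
  refine ⟨w, hw3, ?_, ?_, fun x _ _ => le_max_left _ _, ?_⟩
  · exact {
      adm := adm hNN
      kN := hkN
      rlow2 := fun x h1 h2 => le_trans hnum.p2 (hNN x h1 h2).1
      rub := fun z x _ h2 => le_trans (nng_RR hp hNN h2).2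
        (le_trans (hpow1 z x) (hone 2 (by norm_num)))
      far := fun z x h1 h2 => le_trans (nng_RR hp hNN h2).2 (hpow12 z x h1)
      tiny := tiny
      w1 := w1
      wlog := wlog
      m0w := hm0w
      hA := hA
      hB := hB
      as1 := has
      at_l := fun y hy => nng_atl hp hq hqp hNN hη0 hη1 hη2 w hy
      at_r := fun y hy => nng_atl hp hq hqp (nng_mirr hNN) hη0 hη1 hη2 w hy
      suml := by
        refine le_trans (Finset.sum_le_sum fun y hy =>
          nng_atl hp hq hqp hNN hη0 hη1 hη2 w (by rw [Finset.mem_range] at hy; omega)) ?_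
        rw [Finset.sum_const, Finset.card_range, nsmul_eq_mul, mul_comm]
        refine mul_le_mul_of_nonneg_left ?_ (by linarith)
        exact_mod_cast Nat.sub_le N 1
      sumr := by
        refine le_trans (Finset.sum_le_sum fun y hy =>
          nng_atl hp hq hqp (nng_mirr hNN) hη0 hη1 hη2 w
            (by rw [Finset.mem_range] at hy; omega)) ?_
        rw [Finset.sum_const, Finset.card_range, nsmul_eq_mul, mul_comm]
        refine mul_le_mul_of_nonneg_left ?_ (by linarith)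
        exact_mod_cast Nat.sub_le N 1
      near := fun z x _ _ h3 => le_trans (nng_RR hp hNN (by omega)).2
        (le_trans (hpow1 z x) (hone _ (by positivity)))
      rlow := fun b h1 h2 => le_trans hnum.pg (hNN b (by omega) (by omega)).1
      zs := nng_zs hp hq hqp hNN (N - k) w w1 hB
      tail := le_trans (nng_tails hp hq hqp hNN k m0 (by omega)) htail
      loc := fun b h1 h2 _ _ => (hNN b h1 h2).1 }
  · refine le_trans (nng_tails hp hq hqp hNN' k m0 (by omega)) ?_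
    linarith
  · intro A x0 B hAx hxB hBN
    exact {
      adm := adm hNN'
      low := fun x _ _ => le_max_right _ _
      far := fun z x h1 h2 => by
        refine le_trans (nng_RR hp hNN' h2).2 (le_trans (hpow12 z x h1) ?_)
        exact Real.rpow_le_rpow_of_exponent_le hN1 (by norm_num)
      tiny := tiny
      w1 := w1
      wlog := wlog
      hA := hAx
      hB := hxB
      hBN := hBN
      at_l := fun y _ hy => nng_atl hp hq hqp hNN' hη0 hη1 hη2 w (by omega)
      at_r := fun y _ hy => nng_atl hp hq hqp (nng_mirr hNN') hη0 hη1 hη2 w (by omega)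
      near := fun z x _ _ h3 => le_trans (nng_RR hp hNN' (by omega)).2
        (le_trans (hpow1 z x) (hone _ (by positivity)))
      rlow := fun b h1 h2 => by
        refine le_trans ?_ (le_trans hnum.pg (hNN b (by omega) (by omega)).1)
        exact Real.rpow_le_rpow_of_exponent_le hN1 (by linarith)
      zs := nng_zs hp hq hqp hNN' x0 w w1 (by omega) }

end Pool.Agent.Helper98.EX
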